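import Mathlib

set_option autoImplicit false

/-!
# Union-closed families with heavy unions of generators
-/

namespace Pool.Agent.K35c.HW

open Finset

variable {α : Type*} [DecidableEq α]

/-- `M` is a union of members of `G` -/
def UnionOf (G : Finset (Finset α)) (M : Finset α) : Prop := ∀ i ∈ M, ∃ g ∈ G, i ∈ g ∧ g ⊆ M

/-- weights on `M` for which every member of `G` meeting `M` has at least half of the weight of
`M` -/
def Half (G : Finset (Finset α)) (M : Finset α) : Prop :=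
  ∃ c : α → ℕ, 0 < ∑ x ∈ M, c x ∧ ∀ h ∈ G, (h ∩ M).Nonempty → ∑ x ∈ M, c x ≤ 2 * ∑ x ∈ h ∩ M, c x

/-- weights on `M` for which every member of `G` meeting `M` has more than half of the weight of
`M` -/
def OverHalf (G : Finset (Finset α)) (M : Finset α) : Prop :=
  ∃ c : α → ℕ, ∀ h ∈ G, (h ∩ M).Nonempty → ∑ x ∈ M, c x < 2 * ∑ x ∈ h ∩ M, c x

/-- `A` consists of unions of members of `G` and is closed under unions with members of `G` -/
structure Gen (G A : Finset (Finset α)) : Prop where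
  st : ∀ S ∈ A, ∀ g ∈ G, S ∪ g ∈ A
  un : ∀ S ∈ A, UnionOf G S

theorem sup_mem {G A : Finset (Finset α)} (h : ∀ S ∈ A, ∀ g ∈ G, S ∪ g ∈ A) {S : Finset α}
    (hS : S ∈ A) (B : Finset (Finset α)) (hB : B ⊆ G) : S ∪ B.sup id ∈ A := by
  induction B using Finset.induction_on with
  | empty => simpa using hS
  | insert g B hg ih =>
    rw [sup_insert]
    have h1 := h _ (ih (fun x hx => hB (mem_insert_of_mem hx))) g (hB (mem_insert_self _ _))
    have h2 : S ∪ (id g ⊔ B.sup id) = (S ∪ B.sup id) ∪ g := by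
      ext x
      simp only [id, sup_eq_union, mem_union]
      tauto
    rw [h2]; exact h1

theorem UnionOf.eq_sup {G : Finset (Finset α)} {M : Finset α} (h : UnionOf G M) :
    M = (G.filter (fun g => g ⊆ M)).sup id := by
  apply Subset.antisymm
  · intro i hi
    obtain ⟨g, hg, hig, hgM⟩ := h i hi
    rw [mem_sup]
    exact ⟨g, mem_filter.2 ⟨hg, hgM⟩, hig⟩
  · apply Finset.sup_le
    intro g hg
    exact (mem_filter.1 hg).2

theorem Gen.union_mem {G A : Finset (Finset α)} (h : Gen G A) {S M : Finset α} (hS : S ∈ A)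
    (hM : UnionOf G M) : S ∪ M ∈ A := by
  rw [hM.eq_sup]
  exact sup_mem h.st hS _ (filter_subset _ _)

/-- the sum of the weighted frequencies -/
theorem sum_freq (A : Finset (Finset α)) (M : Finset α) (c : α → ℕ) :
    ∑ x ∈ M, (c x : ℤ) * (2 * ((A.filter fun S => x ∈ S).card : ℤ) - A.card) =
      ∑ S ∈ A, (2 * ((∑ x ∈ S ∩ M, c x : ℕ) : ℤ) - ((∑ x ∈ M, c x : ℕ) : ℤ)) := by
  have h1 : ∀ x, ((A.filter fun S => x ∈ S).card : ℤ) = ∑ S ∈ A, (if x ∈ S then 1 else 0 : ℤ) := by
    intro x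
    rw [card_filter]
    push_cast
    rfl
  have h2 : ∀ S, ((∑ x ∈ S ∩ M, c x : ℕ) : ℤ) = ∑ x ∈ M, (if x ∈ S then (c x : ℤ) else 0) := by
    intro S
    rw [← sum_filter]
    push_cast
    apply sum_congr _ (fun _ _ => rfl)
    ext x
    simp only [mem_inter, mem_filter]
    tauto
  simp only [h1, h2]
  rw [sum_sub_distrib, ← mul_sum, sum_comm]
  simp only [mul_sub, sum_sub_distrib, sum_const, nsmul_eq_mul]
  congr 1
  · rw [mul_sum]
    apply sum_congr rfl
    intro x _
    rw [mul_left_comm]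
    congr 1
    rw [mul_sum]
    apply sum_congr rfl
    intro S _
    split_ifs <;> simp
  · push_cast
    rw [mul_sum]
    apply sum_congr rfl
    intro x _
    ring

/-- the tight case -/
theorem tight {G A : Finset (Finset α)} (h : Gen G A) {M : Finset α} (hM : UnionOf G M)
    (c : α → ℕ) (hpos : 0 < ∑ x ∈ M, c x)
    (hc : ∀ g ∈ G, (g ∩ M).Nonempty → ∑ x ∈ M, c x ≤ 2 * ∑ x ∈ g ∩ M, c x)
    (hle : ∀ x ∈ M, 2 * (A.filter fun S => x ∈ S).card ≤ A.card) :
    (∀ T ∈ A, M ⊆ T → T \ M ∈ A) ∧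
    ((∀ g ∈ G, (g ∩ M).Nonempty → ∑ x ∈ M, c x < 2 * ∑ x ∈ g ∩ M, c x) →
      ∀ S ∈ A, Disjoint S M ∨ M ⊆ S) := by
  have hmem : ∀ S ∈ A, (S ∩ M).Nonempty → ∃ g ∈ G, g ⊆ S ∧ (g ∩ M).Nonempty := by
    intro S hS hne
    obtain ⟨i, hi⟩ := hne
    rw [mem_inter] at hi
    obtain ⟨g, hg, hig, hgS⟩ := h.un S hS i hi.1
    exact ⟨g, hg, hgS, i, mem_inter.2 ⟨hig, hi.2⟩⟩
  have hmono : ∀ S g : Finset α, g ⊆ S → ∑ x ∈ g ∩ M, c x ≤ ∑ x ∈ S ∩ M, c x := by
    intro S g hgS
    exact sum_le_sum_of_subset (inter_subset_inter_right hgS)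
  set w := ∑ x ∈ M, c x with hw
  set f : Finset α → ℤ := fun S => 2 * ((∑ x ∈ S ∩ M, c x : ℕ) : ℤ) - (w : ℤ) with hf
  set A0 := A.filter (fun S => ¬ (S ∩ M).Nonempty) with hA0
  set A1 := A.filter (fun S => M ⊆ S) with hA1
  set A2 := A.filter (fun S => (S ∩ M).Nonempty ∧ ¬ M ⊆ S) with hA2
  have hMne : M.Nonempty := by
    rw [nonempty_iff_ne_empty]
    intro h0
    rw [hw, h0, sum_empty] at hpos
    exact absurd hpos (lt_irrefl _)
  have hsum : ∑ S ∈ A, f S = ∑ S ∈ A0, f S + (∑ S ∈ A1, f S + ∑ S ∈ A2, f S) := by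
    rw [← sum_filter_not_add_sum_filter A (fun S => (S ∩ M).Nonempty) f]
    congr 1
    rw [← sum_filter_add_sum_filter_not (A.filter fun S => (S ∩ M).Nonempty) (fun S => M ⊆ S) f]
    rw [filter_filter, filter_filter]
    congr 1
    apply sum_congr _ (fun _ _ => rfl)
    apply filter_congr
    intro S _
    constructor
    · exact fun h => h.2
    · intro h
      exact ⟨by rw [inter_eq_right.2 h]; exact hMne, h⟩
  have h0 : ∑ S ∈ A0, f S = - (w : ℤ) * A0.card := by
    rw [sum_congr rfl (g := fun _ => - (w : ℤ)), sum_const, nsmul_eq_mul, mul_comm]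
    intro S hS
    rw [hA0, mem_filter, not_nonempty_iff_eq_empty] at hS
    simp [hf, hS.2]
  have h1 : ∑ S ∈ A1, f S = (w : ℤ) * A1.card := by
    rw [sum_congr rfl (g := fun _ => (w : ℤ)), sum_const, nsmul_eq_mul, mul_comm]
    intro S hS
    rw [hA1, mem_filter] at hS
    rw [hf]
    simp only [inter_eq_right.2 hS.2, ← hw]
    ring
  have h2 : ∀ S ∈ A2, 0 ≤ f S := by
    intro S hS
    rw [hA2, mem_filter] at hS
    obtain ⟨g, hg, hgS, hgM⟩ := hmem S hS.1 hS.2.1
    have h3 := hc g hg hgM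
    have h4 := hmono S g hgS
    have h5 : w ≤ 2 * ∑ x ∈ S ∩ M, c x := by omega
    rw [hf]
    simp only
    have h6 : (w : ℤ) ≤ 2 * ((∑ x ∈ S ∩ M, c x : ℕ) : ℤ) := by exact_mod_cast h5
    linarith
  have htot : ∑ S ∈ A, f S ≤ 0 := by
    rw [← sum_freq]
    apply sum_nonpos
    intro x hx
    have h3 := hle x hx
    have h4 : 2 * ((A.filter fun S => x ∈ S).card : ℤ) - A.card ≤ 0 := by
      have : (2 * (A.filter fun S => x ∈ S).card : ℤ) ≤ A.card := by exact_mod_cast h3
      linarith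
    exact mul_nonpos_of_nonneg_of_nonpos (by positivity) h4
  -- the injection
  have hinj : Set.InjOn (fun S : Finset α => S ∪ M) A0 := by
    intro S hS T hT hST
    rw [mem_coe, hA0, mem_filter, not_nonempty_iff_eq_empty] at hS hT
    simp only at hST
    have e : ∀ S : Finset α, S ∩ M = ∅ → (S ∪ M) \ M = S := by
      intro S hS
      rw [union_sdiff_right]
      exact sdiff_eq_self_of_disjoint (disjoint_iff_inter_eq_empty.2 hS)
    rw [← e S hS.2, hST, e T hT.2]
  have hmaps : ∀ S ∈ A0, (fun S : Finset α => S ∪ M) S ∈ A1 := by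
    intro S hS
    rw [hA0, mem_filter] at hS
    rw [hA1, mem_filter]
    exact ⟨h.union_mem hS.1 hM, subset_union_right⟩
  have hcard : A0.card ≤ A1.card := card_le_card_of_injOn _ hmaps hinj
  have hw' : (0 : ℤ) < w := by exact_mod_cast hpos
  have hA2s : 0 ≤ ∑ S ∈ A2, f S := sum_nonneg h2
  rw [hsum, h0, h1] at htot
  have hcard' : (A0.card : ℤ) ≤ A1.card := by exact_mod_cast hcard
  have hcard2 : (A1.card : ℤ) ≤ A0.card := by nlinarith
  have hA2z : ∑ S ∈ A2, f S = 0 := by nlinarith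
  constructor
  · intro T hT hMT
    have himg : A0.image (fun S => S ∪ M) = A1 := by
      apply eq_of_subset_of_card_le
      · intro T hT
        obtain ⟨S, hS, rfl⟩ := mem_image.1 hT
        exact hmaps S hS
      · rw [card_image_of_injOn hinj]
        exact_mod_cast hcard2
    have hT1 : T ∈ A1 := mem_filter.2 ⟨hT, hMT⟩
    rw [← himg, mem_image] at hT1
    obtain ⟨S, hS, hST⟩ := hT1
    rw [hA0, mem_filter, not_nonempty_iff_eq_empty] at hS
    have : T \ M = S := by
      rw [← hST, union_sdiff_right]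
      exact sdiff_eq_self_of_disjoint (disjoint_iff_inter_eq_empty.2 hS.2)
    rw [this]; exact hS.1
  · intro hstr S hS
    by_contra hno
    push Not at hno
    have hS2 : S ∈ A2 := by
      rw [hA2, mem_filter]
      refine ⟨hS, ?_, hno.2⟩
      rw [nonempty_iff_ne_empty]
      intro h5
      exact hno.1 (disjoint_iff_inter_eq_empty.2 h5)
    have h3 := (sum_eq_zero_iff_of_nonneg h2).1 hA2z S hS2
    obtain ⟨g, hg, hgS, hgM⟩ := hmem S hS (mem_filter.1 hS2).2.1
    have h4 := hstr g hg hgM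
    have h5 := hmono S g hgS
    have h6 : w < 2 * ∑ x ∈ S ∩ M, c x := by omega
    have h7 : (w : ℤ) < 2 * ((∑ x ∈ S ∩ M, c x : ℕ) : ℤ) := by exact_mod_cast h6
    simp only [hf] at h3
    linarith

end Pool.Agent.K35c.HW
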