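import Pool.Agent.K35c.HW.Core

set_option autoImplicit false

/-!
# Union-closed families with heavy unions of generators: the strict inequality
-/

namespace Pool.Agent.K35c.HW

open Finset

variable {α : Type*} [DecidableEq α]

/-- the hereditary hypothesis on the generators -/
def Hyp (G : Finset (Finset α)) : Prop :=
  ∀ Z : Finset α, (∃ g ∈ G, g.Nonempty ∧ Disjoint g Z) →
    (∃ M : Finset α, M.Nonempty ∧ Disjoint M Z ∧ UnionOf G M ∧
      OverHalf (G.filter fun h => Disjoint h Z) M) ∨
    (∀ g ∈ G, g.Nonempty → Disjoint g Z → ∃ M : Finset α, M ⊆ g ∧ UnionOf G M ∧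
      Half (G.filter fun h => Disjoint h Z) M)

theorem unionOf_filter {G : Finset (Finset α)} {M Z : Finset α} (hM : UnionOf G M)
    (hZ : Disjoint M Z) : UnionOf (G.filter fun h => Disjoint h Z) M := by
  intro i hi
  obtain ⟨g, hg, hig, hgM⟩ := hM i hi
  exact ⟨g, mem_filter.2 ⟨hg, disjoint_of_subset_left hgM hZ⟩, hig, hgM⟩

theorem Hyp.filter {G : Finset (Finset α)} (h : Hyp G) (M : Finset α) :
    Hyp (G.filter fun g => Disjoint g M) := by
  intro Z hZ
  have hff : ∀ N : Finset α, ((G.filter fun g => Disjoint g M).filter fun g => Disjoint g Z) =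
      G.filter (fun g => Disjoint g (M ∪ Z)) := by
    intro _
    rw [filter_filter]
    apply filter_congr
    intro g _
    rw [disjoint_union_right]
  obtain ⟨g, hg, hgne, hgZ⟩ := hZ
  rw [mem_filter] at hg
  rcases h (M ∪ Z) ⟨g, hg.1, hgne, disjoint_union_right.2 ⟨hg.2, hgZ⟩⟩ with
    ⟨N, hN, hNZ, hNu, hNo⟩ | h2
  · left
    rw [disjoint_union_right] at hNZ
    refine ⟨N, hN, hNZ.2, unionOf_filter hNu hNZ.1, ?_⟩
    rw [hff N]; exact hNo
  · right
    intro g hg hgne hgZ
    rw [mem_filter] at hg
    obtain ⟨N, hNg, hNu, hNh⟩ := h2 g hg.1 hgne (disjoint_union_right.2 ⟨hg.2, hgZ⟩)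
    refine ⟨N, hNg, unionOf_filter hNu (disjoint_of_subset_left hNg hg.2), ?_⟩
    rw [hff N]; exact hNh

theorem hyp_zero {G : Finset (Finset α)} (h : Hyp G) (hne : ∃ g ∈ G, g.Nonempty) :
    (∃ M : Finset α, M.Nonempty ∧ UnionOf G M ∧ OverHalf G M) ∨
    (∀ g ∈ G, g.Nonempty → ∃ M : Finset α, M ⊆ g ∧ UnionOf G M ∧ Half G M) := by
  have hf : (G.filter fun h => Disjoint h (∅ : Finset α)) = G := by
    apply filter_true_of_mem
    intro g _
    exact disjoint_empty_right g
  obtain ⟨g, hg, hgne⟩ := hne
  rcases h ∅ ⟨g, hg, hgne, disjoint_empty_right g⟩ with ⟨M, h1, _, h3, h4⟩ | h2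
  · left; rw [hf] at h4; exact ⟨M, h1, h3, h4⟩
  · right
    intro g hg hgne
    obtain ⟨M, h3, h4, h5⟩ := h2 g hg hgne (disjoint_empty_right g)
    rw [hf] at h5
    exact ⟨M, h3, h4, h5⟩

/-- a family closed under unions and differences which separates the points is a power set -/
theorem powerset_of_diff {A : Finset (Finset α)} (hU : ∀ S ∈ A, ∀ T ∈ A, S ∪ T ∈ A)
    (hD : ∀ S ∈ A, ∀ T ∈ A, S \ T ∈ A) (hne : A.Nonempty)
    (hsep : ∀ x ∈ A.sup id, ∀ y ∈ A.sup id, x ≠ y →
      ∃ S ∈ A, (x ∈ S ∧ y ∉ S) ∨ (y ∈ S ∧ x ∉ S)) : A = (A.sup id).powerset := by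
  have hsub : ∀ S ∈ A, S ⊆ A.sup id := fun S hS => Finset.le_sup (f := id) hS
  have hempty : ∅ ∈ A := by
    obtain ⟨S, hS⟩ := hne
    have := hD S hS S hS
    rwa [sdiff_self] at this
  have hI : ∀ S ∈ A, ∀ T ∈ A, S ∩ T ∈ A := by
    intro S hS T hT
    have h := hD S hS _ (hD S hS T hT)
    rwa [sdiff_sdiff_right_self] at h
  have hatom : ∀ x ∈ A.sup id, {x} ∈ A := by
    intro x hx
    have hx' := hx
    rw [mem_sup] at hx'
    obtain ⟨S0, hS0, hxS0⟩ := hx'
    obtain ⟨S, hS, hmin⟩ := exists_min_image (A.filter fun S => x ∈ S) card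
      ⟨S0, mem_filter.2 ⟨hS0, hxS0⟩⟩
    rw [mem_filter] at hS
    have hSx : S = {x} := by
      apply Subset.antisymm _ (singleton_subset_iff.2 hS.2)
      intro y hy
      rw [mem_singleton]
      by_contra hyx
      obtain ⟨T, hT, hxy⟩ := hsep x hx y (hsub S hS.1 hy) (fun h => hyx h.symm)
      have key : ∀ R ∈ A, R ⊆ S → x ∈ R → y ∉ R → False := by
        intro R hR hRS hxR hyR
        have h1 := hmin R (mem_filter.2 ⟨hR, hxR⟩)
        have h2 : R.card < S.card := card_lt_card
          (Finset.ssubset_iff_subset_ne.2 ⟨hRS, fun h => hyR (by rw [h]; exact hy)⟩)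
        omega
      rcases hxy with ⟨h1, h2⟩ | ⟨h1, h2⟩
      · exact key _ (hI S hS.1 T hT) inter_subset_left (mem_inter.2 ⟨hS.2, h1⟩)
          (fun h => h2 (mem_inter.1 h).2)
      · exact key _ (hD S hS.1 T hT) sdiff_subset (mem_sdiff.2 ⟨hS.2, h2⟩)
          (fun h => (mem_sdiff.1 h).2 h1)
    rw [← hSx]; exact hS.1
  apply Subset.antisymm
  · intro S hS
    exact mem_powerset.2 (hsub S hS)
  · intro W hW
    rw [mem_powerset] at hW
    induction W using Finset.induction_on with
    | empty => exact hempty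
    | insert x W _ ih =>
      have h1 := ih (fun y hy => hW (mem_insert_of_mem hy))
      have h2 := hU _ (hatom x (hW (mem_insert_self _ _))) _ h1
      rwa [insert_eq]

/-- every nonempty generator contains a removable set -/
theorem diff_of_removable {G A : Finset (Finset α)} (h : Gen G A)
    (hrem : ∀ g ∈ G, g.Nonempty → ∃ M ⊆ g, M.Nonempty ∧ UnionOf G M ∧ ∀ T ∈ A, M ⊆ T → T \ M ∈ A) :
    ∀ S ∈ A, ∀ T ∈ A, S \ T ∈ A := by
  have key : ∀ n : ℕ, ∀ T ∈ A, T.card ≤ n → ∀ S ∈ A, S \ T ∈ A := by
    intro n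
    induction n with
    | zero =>
      intro T _ hT S hS
      rw [Nat.le_zero, card_eq_zero] at hT
      rw [hT, sdiff_empty]; exact hS
    | succ n ih =>
      intro T hT hTn S hS
      rcases T.eq_empty_or_nonempty with h0 | ⟨i, hi⟩
      · rw [h0, sdiff_empty]; exact hS
      obtain ⟨g, hg, hig, hgT⟩ := h.un T hT i hi
      obtain ⟨M, hMg, hMne, hMu, hM⟩ := hrem g hg ⟨i, hig⟩
      have hMT : M ⊆ T := hMg.trans hgT
      have h1 : S \ M ∈ A := by
        have h2 := hM _ (h.union_mem hS hMu) subset_union_right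
        rwa [union_sdiff_right] at h2
      have h2 : T \ M ∈ A := hM T hT hMT
      have h3 : (T \ M).card ≤ n := by
        have := card_sdiff_add_card_eq_card hMT
        have := hMne.card_pos
        omega
      have h4 := ih _ h2 h3 _ h1
      have h5 : (S \ M) \ (T \ M) = S \ T := by
        ext x
        simp only [mem_sdiff]
        constructor
        · rintro ⟨⟨h6, h7⟩, h8⟩
          exact ⟨h6, fun h9 => h8 ⟨h9, h7⟩⟩
        · rintro ⟨h6, h7⟩
          exact ⟨⟨h6, fun h8 => h7 (hMT h8)⟩, fun h8 => h7 h8.1⟩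
      rwa [h5] at h4
  intro S hS T hT
  exact key _ T hT le_rfl S hS

theorem main (n : ℕ) : ∀ G A : Finset (Finset α), G.card ≤ n → Gen G A → Hyp G → A.Nonempty →
    (∀ x ∈ A.sup id, ∀ y ∈ A.sup id, x ≠ y → ∃ S ∈ A, (x ∈ S ∧ y ∉ S) ∨ (y ∈ S ∧ x ∉ S)) →
    (∀ x ∈ A.sup id, 2 * (A.filter fun S => x ∈ S).card ≤ A.card) →
    A = (A.sup id).powerset := by
  induction n with
  | zero =>
    intro G A hG h _ hne _ _
    rw [Nat.le_zero, card_eq_zero] at hG
    subst hG
    have h1 : ∀ S ∈ A, S = ∅ := by
      intro S hS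
      rw [eq_empty_iff_forall_notMem]
      intro i hi
      obtain ⟨g, hg, _⟩ := h.un S hS i hi
      exact absurd hg (notMem_empty _)
    have h2 : A = {∅} := eq_singleton_iff_nonempty_unique_mem.2 ⟨hne, h1⟩
    rw [h2]
    simp
  | succ n ih =>
    intro G A hG h hyp hne hsep hle
    by_cases hGne : ∃ g ∈ G, g.Nonempty
    swap
    · have h1 : ∀ S ∈ A, S = ∅ := by
        intro S hS
        rw [eq_empty_iff_forall_notMem]
        intro i hi
        obtain ⟨g, hg, hig, _⟩ := h.un S hS i hi
        exact hGne ⟨g, hg, i, hig⟩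
      have h2 : A = {∅} := eq_singleton_iff_nonempty_unique_mem.2 ⟨hne, h1⟩
      rw [h2]
      simp
    have hsub : ∀ S ∈ A, S ⊆ A.sup id := fun S hS => Finset.le_sup (f := id) hS
    have hMsub : ∀ M, UnionOf G M → M ⊆ A.sup id := by
      intro M hM
      obtain ⟨S, hS⟩ := hne
      exact subset_union_right.trans (hsub _ (h.union_mem hS hM))
    rcases hyp_zero hyp hGne with ⟨M, hMne, hMu, c, hc⟩ | hhalf
    · -- the product case
      obtain ⟨i0, hi0⟩ := hMne
      obtain ⟨g0, hg0, hig0, hg0M⟩ := hMu i0 hi0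
      have hg0M' : (g0 ∩ M).Nonempty := ⟨i0, mem_inter.2 ⟨hig0, hi0⟩⟩
      have hpos : 0 < ∑ x ∈ M, c x := by
        have h1 := hc g0 hg0 hg0M'
        have h2 : ∑ x ∈ g0 ∩ M, c x ≤ ∑ x ∈ M, c x := sum_le_sum_of_subset inter_subset_right
        omega
      obtain ⟨hrem, hdich⟩ := tight h hMu c hpos (fun g hg hgM => (hc g hg hgM).le)
        (fun x hx => hle x (hMsub M hMu hx))
      have hdich' := hdich hc
      -- `M` is a singleton
      have hMone : M = {i0} := by
        apply Subset.antisymm _ (singleton_subset_iff.2 hi0)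
        intro y hy
        rw [mem_singleton]
        by_contra hne'
        obtain ⟨S, hS, h1⟩ := hsep y (hMsub M hMu hy) i0 (hMsub M hMu hi0) hne'
        rcases hdich' S hS with h2 | h2
        · rcases h1 with ⟨h3, _⟩ | ⟨h3, _⟩
          · exact (disjoint_left.1 h2 h3) hy
          · exact (disjoint_left.1 h2 h3) hi0
        · rcases h1 with ⟨_, h3⟩ | ⟨_, h3⟩
          · exact h3 (h2 hi0)
          · exact h3 (h2 hy)
      set B := A.filter (fun S => Disjoint S M) with hB
      have hBA : ∀ S, S ∈ B ↔ S ∈ A ∧ Disjoint S M := fun S => by rw [hB, mem_filter]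
      have hsplit : ∀ S ∈ A, S \ M ∈ B := by
        intro S hS
        rw [hBA]
        refine ⟨?_, sdiff_disjoint⟩
        rcases hdich' S hS with h1 | h1
        · rw [sdiff_eq_self_of_disjoint h1]; exact hS
        · exact hrem S hS h1
      have hBne : B.Nonempty := by
        obtain ⟨S, hS⟩ := hne
        exact ⟨_, hsplit S hS⟩
      have hGB : Gen (G.filter fun g => Disjoint g M) B := by
        constructor
        · intro S hS g hg
          rw [hBA] at hS ⊢
          rw [mem_filter] at hg
          exact ⟨h.st S hS.1 g hg.1, disjoint_union_left.2 ⟨hS.2, hg.2⟩⟩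
        · intro S hS
          rw [hBA] at hS
          exact unionOf_filter (h.un S hS.1) hS.2
      have hcardG : (G.filter fun g => Disjoint g M).card ≤ n := by
        have h1 : (G.filter fun g => Disjoint g M).card < G.card := by
          apply card_lt_card
          rw [filter_ssubset]
          refine ⟨g0, hg0, fun h2 => ?_⟩
          exact disjoint_left.1 h2 hig0 hi0
        omega
      have hBsup : ∀ x, x ∈ B.sup id ↔ x ∈ A.sup id ∧ x ∉ M := by
        intro x
        rw [mem_sup, mem_sup]
        constructor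
        · rintro ⟨S, hS, hx⟩
          rw [hBA] at hS
          exact ⟨⟨S, hS.1, hx⟩, disjoint_left.1 hS.2 hx⟩
        · rintro ⟨⟨S, hS, hx⟩, hxM⟩
          exact ⟨S \ M, hsplit S hS, mem_sdiff.2 ⟨hx, hxM⟩⟩
      -- cardinalities
      have hcount : ∀ p : Finset α → Prop, ∀ [DecidablePred p], (∀ S, p (S ∪ M) ↔ p S) →
          (A.filter p).card = 2 * (B.filter p).card := by
        intro p _ hp
        have h1 := card_filter_add_card_filter_not (s := A.filter p) (fun S => Disjoint S M)
        have h2 : (A.filter p).filter (fun S => Disjoint S M) = B.filter p := by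
          ext S
          simp only [mem_filter, hBA]
          tauto
        have h3 : ((A.filter p).filter (fun S => ¬ Disjoint S M)).card = (B.filter p).card := by
          symm
          refine card_bij (fun S _ => S ∪ M) ?_ ?_ ?_
          · intro S hS
            simp only [mem_filter, hBA] at hS ⊢
            refine ⟨⟨h.union_mem hS.1.1 hMu, (hp S).2 hS.2⟩, fun h4 => ?_⟩
            exact disjoint_left.1 h4 (mem_union_right _ hi0) hi0
          · intro S hS T hT hST
            simp only [mem_filter, hBA] at hS hT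
            have e : ∀ S : Finset α, Disjoint S M → (S ∪ M) \ M = S := by
              intro S hS
              rw [union_sdiff_right]
              exact sdiff_eq_self_of_disjoint hS
            rw [← e S hS.1.2, hST, e T hT.1.2]
          · intro T hT
            simp only [mem_filter] at hT
            have hMT : M ⊆ T := (hdich' T hT.1.1).resolve_left hT.2
            refine ⟨T \ M, ?_, ?_⟩
            · rw [mem_filter]
              refine ⟨hsplit T hT.1.1, ?_⟩
              rw [← hp, sdiff_union_of_subset hMT]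
              exact hT.1.2
            · exact sdiff_union_of_subset hMT
        rw [h2, h3] at h1
        omega
      have hAcard : A.card = 2 * B.card := by
        have := hcount (fun _ => True) (fun _ => Iff.rfl)
        simpa using this
      have hBpow : B = (B.sup id).powerset := by
        apply ih _ B hcardG hGB (hyp.filter M) hBne
        · intro x hx y hy hxy
          rw [hBsup] at hx hy
          obtain ⟨S, hS, h1⟩ := hsep x hx.1 y hy.1 hxy
          refine ⟨S \ M, hsplit S hS, ?_⟩
          rcases h1 with ⟨h2, h3⟩ | ⟨h2, h3⟩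
          · exact Or.inl ⟨mem_sdiff.2 ⟨h2, hx.2⟩, fun h4 => h3 (mem_sdiff.1 h4).1⟩
          · exact Or.inr ⟨mem_sdiff.2 ⟨h2, hy.2⟩, fun h4 => h3 (mem_sdiff.1 h4).1⟩
        · intro x hx
          rw [hBsup] at hx
          have h1 := hle x hx.1
          rw [hAcard, hcount (fun S => x ∈ S) (fun S => by
            rw [mem_union]
            exact ⟨fun h => h.resolve_right hx.2, Or.inl⟩)] at h1
          omega
      apply Subset.antisymm
      · intro S hS
        exact mem_powerset.2 (hsub S hS)
      · intro W hW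
        rw [mem_powerset] at hW
        have h1 : W \ M ∈ B := by
          rw [hBpow, mem_powerset]
          intro x hx
          rw [mem_sdiff] at hx
          rw [hBsup]
          exact ⟨hW hx.1, hx.2⟩
        by_cases hMW : M ⊆ W
        · have h2 := h.union_mem ((hBA _).1 h1).1 hMu
          rwa [sdiff_union_of_subset hMW] at h2
        · have h2 : W \ M = W := by
            apply sdiff_eq_self_of_disjoint
            rw [hMone]
            rw [hMone] at hMW
            rw [disjoint_singleton_right]
            intro h3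
            exact hMW (singleton_subset_iff.2 h3)
          rw [h2] at h1
          exact ((hBA _).1 h1).1
    · -- the removable case
      have hrem : ∀ g ∈ G, g.Nonempty → ∃ M ⊆ g, M.Nonempty ∧ UnionOf G M ∧
          ∀ T ∈ A, M ⊆ T → T \ M ∈ A := by
        intro g hg hgne
        obtain ⟨M, hMg, hMu, c, hpos, hc⟩ := hhalf g hg hgne
        refine ⟨M, hMg, ?_, hMu, ?_⟩
        · rw [nonempty_iff_ne_empty]
          intro h0
          rw [h0, sum_empty] at hpos
          exact absurd hpos (lt_irrefl _)
        · exact (tight h hMu c hpos hc (fun x hx => hle x (hMsub M hMu hx))).1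
      refine powerset_of_diff ?_ (diff_of_removable h hrem) hne hsep
      intro S hS T hT
      exact h.union_mem hS (h.un T hT)

end Pool.Agent.K35c.HW
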